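import Pool.Agent.V11317.Had.Hull2

set_option autoImplicit false

/-!
# MP_eba1ef_gt: the covering number of the convex hull of a union

For a compact convex set `X` let `c(X)` be the least number of translates of its relative interior
that cover `X`, and `dim X` its dimension.

1. `c(conv(A_1 ∪ ... ∪ A_m)) ≤ c(A_1) + ... + c(A_m)` for all compact convex sets `A_i` of `ℝⁿ`, of
   arbitrary dimensions and in arbitrary position.
2. If `A` and `B` are skew (they lie in different parallel hyperplanes and the spans of `A - A` and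
   `B - B` have only `0` in common), so that the convex hull is their join, then
   `c(conv(A ∪ B)) = c(A) + c(B)`.
3. Let `K` be a convex body in `ℝⁿ`, the convex hull of compact convex sets `A_i` with
   `∑ 2 ^ (dim A_i) ≤ 2 ^ n`. Then `c(K) ≤ 2 ^ n` if every `A_i` has dimension at most two or satisfies
   `c(A_i) ≤ 2 ^ (dim A_i)`. So a counterexample of least dimension `n` to the conjecture is not the
   convex hull of compact convex sets `A_i` of smaller dimension with `∑ 2 ^ (dim A_i) ≤ 2 ^ n`,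
   for example not the convex hull of two compact convex sets of smaller dimension.
4. If the extreme points of the convex body `K` in `ℝⁿ` lie in finitely many flats `U_i`, then
   `c(K) ≤ ∑ c(K ∩ U_i)`; in particular `c(K) ≤ 2 ^ n` if the flats have dimension at most two and
   `∑ 2 ^ (dim U_i) ≤ 2 ^ n` (two planes in `ℝ³`, four planes in `ℝ⁴`, and so on).

The proof of (1). By compactness, if `A` is a compact convex subset of the convex set `K`, there is
for every translate in a covering of `A` a small vector `u` such that all points `x` of `A` in the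
translate by `t` have `x - t + u` in the relative interior of `K`. Here `K` is the convex hull of
the union. A point `x` of `K` is a convex combination of points `a_i` of `A_i`, and one of the
coefficients is at least `s = 1 / (m + 1)`; if this is the `i`-th and `t` belongs to `a_i`, then
`x - s (t - u)` is in the relative interior of `K`. The proof of (2). A translate of the
relative interior of the join which meets `A` does not meet `B`, since the heights of the
translation vectors have different signs, and its part in `A` is contained in a translate of the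
relative interior of `A`.
-/

open Set Topology

namespace Pool.Agent.Results.MP_eba1ef_gt.HullsOfUnions

/-- the Euclidean space -/
abbrev Eu (n : ℕ) : Type := EuclideanSpace ℝ (Fin n)

/-- convex bodies -/
def IsConvexBody {n : ℕ} (K : Set (Eu n)) : Prop :=
  Convex ℝ K ∧ IsCompact K ∧ (interior K).Nonempty

/-- `K` is covered by at most `N` translates of its interior. -/
def CoveredBy {n : ℕ} (K : Set (Eu n)) (N : ℕ) : Prop :=
  ∃ T : Finset (Eu n), T.card ≤ N ∧ K ⊆ ⋃ t ∈ T, (fun x => t + x) '' interior K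

/-- `A` is covered by at most `N` translates of its relative interior. -/
def RelCoveredBy {n : ℕ} (A : Set (Eu n)) (N : ℕ) : Prop :=
  ∃ T : Finset (Eu n), T.card ≤ N ∧ A ⊆ ⋃ t ∈ T, (fun x => t + x) '' intrinsicInterior ℝ A

/-- the dimension of the affine hull of a nonempty set -/
noncomputable def dim {n : ℕ} (A : Set (Eu n)) : ℕ := Module.finrank ℝ (vectorSpan ℝ A)

/-- skew sets: they lie in different parallel hyperplanes, and no nonzero vector is parallel to
both of them -/
def Skew {n : ℕ} (A B : Set (Eu n)) : Prop :=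
  ∃ (φ : Eu n →L[ℝ] ℝ) (c d : ℝ), c ≠ d ∧ (∀ x ∈ A, φ x = c) ∧ (∀ x ∈ B, φ x = d) ∧
    Disjoint (vectorSpan ℝ A) (vectorSpan ℝ B)

theorem result :
    -- 1. subadditivity
    (∀ (n m : ℕ) (A : Fin m → Set (Eu n)), (∀ i, Convex ℝ (A i) ∧ IsCompact (A i)) →
      ∀ N : Fin m → ℕ, (∀ i, RelCoveredBy (A i) (N i)) →
      RelCoveredBy (convexHull ℝ (⋃ i, A i)) (∑ i, N i)) ∧
    -- 2. additivity for joins
    (∀ (n : ℕ) (A B : Set (Eu n)), A.Nonempty → Convex ℝ A → IsCompact A →
      B.Nonempty → Convex ℝ B → IsCompact B → Skew A B →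
      ∀ N, RelCoveredBy (convexHull ℝ (A ∪ B)) N ↔
        ∃ N₁ N₂, N₁ + N₂ ≤ N ∧ RelCoveredBy A N₁ ∧ RelCoveredBy B N₂) ∧
    -- 3. hulls of sets of smaller dimension
    (∀ (n m : ℕ) (K : Set (Eu n)) (A : Fin m → Set (Eu n)), IsConvexBody K →
      (∀ i, Convex ℝ (A i) ∧ IsCompact (A i)) → K = convexHull ℝ (⋃ i, A i) →
      ∑ i, 2 ^ dim (A i) ≤ 2 ^ n →
      ((∀ i, dim (A i) ≤ 2 ∨ RelCoveredBy (A i) (2 ^ dim (A i))) → CoveredBy K (2 ^ n)) ∧
      ((∀ i, dim (A i) < n) → (∀ d < n, ∀ K' : Set (Eu d), IsConvexBody K' →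
        CoveredBy K' (2 ^ d)) → CoveredBy K (2 ^ n))) ∧
    (∀ (n : ℕ) (K A B : Set (Eu n)), IsConvexBody K → Convex ℝ A → IsCompact A →
      Convex ℝ B → IsCompact B → K = convexHull ℝ (A ∪ B) → dim A < n → dim B < n →
      (∀ d < n, ∀ K' : Set (Eu d), IsConvexBody K' → CoveredBy K' (2 ^ d)) →
      CoveredBy K (2 ^ n)) ∧
    -- 4. extreme points in finitely many flats
    (∀ (n m : ℕ) (K : Set (Eu n)) (U : Fin m → AffineSubspace ℝ (Eu n)), IsConvexBody K →
      K.extremePoints ℝ ⊆ ⋃ i, (U i : Set (Eu n)) →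
      (∀ N : Fin m → ℕ, (∀ i, RelCoveredBy (K ∩ U i) (N i)) → CoveredBy K (∑ i, N i)) ∧
      ((∀ i, Module.finrank ℝ (U i).direction ≤ 2) →
        ∑ i, 2 ^ Module.finrank ℝ (U i).direction ≤ 2 ^ n → CoveredBy K (2 ^ n))) := by
  have two : ∀ (n : ℕ) (A B : Set (Eu n)), (⋃ i, (![A, B] : Fin 2 → Set (Eu n)) i) = A ∪ B := by
    intro n A B
    ext x
    simp [Fin.exists_fin_two]
  have sub : ∀ (n m : ℕ) (A : Fin m → Set (Eu n)), (∀ i, Convex ℝ (A i) ∧ IsCompact (A i)) →
      ∀ N : Fin m → ℕ, (∀ i, RelCoveredBy (A i) (N i)) →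
      RelCoveredBy (convexHull ℝ (⋃ i, A i)) (∑ i, N i) := by
    intro n m A hA N hN
    exact (V11317.Had.hull' A (fun i => (hA i).1) (fun i => (hA i).2)
      (fun h => h.intrinsicInterior (convex_convexHull ℝ _)) N hN).1
  have low : ∀ (n m : ℕ) (K : Set (Eu n)) (A : Fin m → Set (Eu n)), IsConvexBody K →
      (∀ i, Convex ℝ (A i) ∧ IsCompact (A i)) → K = convexHull ℝ (⋃ i, A i) →
      ∑ i, 2 ^ dim (A i) ≤ 2 ^ n →
      ((∀ i, dim (A i) ≤ 2 ∨ RelCoveredBy (A i) (2 ^ dim (A i))) → CoveredBy K (2 ^ n)) ∧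
      ((∀ i, dim (A i) < n) → (∀ d < n, ∀ K' : Set (Eu d), IsConvexBody K' →
        CoveredBy K' (2 ^ d)) → CoveredBy K (2 ^ n)) := by
    intro n m K A hK hA hKA hs
    refine ⟨fun h => V11317.Had.body_hull hK A hA hKA (fun i => 2 ^ dim (A i)) (fun i => ?_) hs,
      fun hd h => V11317.Had.body_hull hK A hA hKA (fun i => 2 ^ dim (A i)) (fun i => ?_) hs⟩
    · rcases h i with h1 | h1
      · exact V11317.Had.base (hA i).1 (hA i).2 h1
      · exact h1
    · exact V11317.Had.base' (hA i).1 (hA i).2 fun K' hK' => h _ (hd i) K' hK'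
  refine ⟨sub, ?_, low, ?_, ?_⟩
  · rintro n A B hAn hA hAc hBn hB hBc ⟨φ, c, d, h⟩ N
    constructor
    · intro hN
      exact V11317.Had.join_lower hA hB (hAn.intrinsicInterior hA) (hBn.intrinsicInterior hB) h hN
    · rintro ⟨N₁, N₂, hN, h1, h2⟩
      have key := sub n 2 ![A, B] (fun i => by
        fin_cases i
        · exact ⟨hA, hAc⟩
        · exact ⟨hB, hBc⟩) ![N₁, N₂] (fun i => by
        fin_cases i
        · exact h1
        · exact h2)
      rw [two, Fin.sum_univ_two] at key
      exact V11317.Had.RCov.mono key hN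
  · intro n K A B hK hA hAc hB hBc hKAB hdA hdB h
    refine (low n 2 K ![A, B] hK (fun i => ?_) (by rw [two]; exact hKAB) ?_).2 (fun i => ?_) h
    · fin_cases i
      · exact ⟨hA, hAc⟩
      · exact ⟨hB, hBc⟩
    · rw [Fin.sum_univ_two]
      show 2 ^ dim A + 2 ^ dim B ≤ 2 ^ n
      obtain ⟨k, rfl⟩ : ∃ k, n = k + 1 := ⟨n - 1, by omega⟩
      have h1 : 2 ^ dim A ≤ 2 ^ k := Nat.pow_le_pow_right (by norm_num) (by omega)
      have h2 : 2 ^ dim B ≤ 2 ^ k := Nat.pow_le_pow_right (by norm_num) (by omega)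
      rw [pow_succ]
      omega
    · fin_cases i
      · exact hdA
      · exact hdB
  · intro n m K U hK hU
    obtain ⟨h1, hA⟩ := V11317.Had.flats hK U hU
    exact ⟨fun N hN => V11317.Had.body_hull hK (fun i => K ∩ U i) hA h1 N hN le_rfl,
      fun h2 hs => V11317.Had.flats_two hK U hU h2 hs⟩

end Pool.Agent.Results.MP_eba1ef_gt.HullsOfUnions
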