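import Mathlib
import Pool.Agent.V11263.Ten.A5

set_option autoImplicit false

/-!
# MP_eba1ef_gt: bodies with an irreducible group of symmetries, and bodies in spaces of forms

Let `K` be a convex body in a Euclidean space `E` of dimension `d ≥ 2`, with `K ⊆ -a K` (for the
symmetric bodies `a = 1`). `FewTranslates K s` says that `K` is covered by
`1 + 13 d log(2d²+2d+1) 2^d e^(-s)` translates of its interior, and by less than `2^d` if
`s ≥ 5 + 2 log d`.

1. Let `X_i` be finitely many skew-symmetric operators such that `K` is invariant under the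
   one-parameter groups generated by their combinations. Suppose that `-∑ X_i² = q > 0` is a scalar
   and that `‖∑ b_i X_i‖ ≤ κ` for `∑ b_i² ≤ 1`. Then `FewTranslates K (q / (480 κ² (1 + a)²))`.
2. This is the case if the `X_i` are an orthonormal basis (with respect to an invariant inner
   product) of an irreducible Lie algebra of operators. Then `q = ∑ ‖X_i x‖²` for all unit
   vectors `x`.
3. Let `W` be a space of (`m`-tuples of) trace-free tensors of order `k` over `ℝ^n`, invariant under
   the rotations (given as the range of a linear isometry), such that the tensors in `W` are alternating within each of the `r` blocks of a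
   partition of the `k` slots, and eigenvectors, for the eigenvalue `χ`, of the sum of all
   transpositions of the slots. (With the Young diagram with `k` boxes, `r` columns and content `χ`
   these are the irreducible representations of `O(n)`, with multiplicity `m`; `χ = k(k-1)/2` and
   `r = k` for the harmonic polynomials of degree `k`.) Then for all bodies `K` in `W` which are
   invariant under the rotations `FewTranslates K ((n - 1 + 2χ/k) / (960 r (1 + a)²))`.
4. Forms. Let `1 ≤ k < n` and let `K` be a convex body in the space of `m`-tuples of `k`-forms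
   (alternating tensors of order `k`) of `ℝ^n`, of dimension `d = m C(n,k)`, invariant under the
   rotations of `ℝ^n`. Then `FewTranslates K ((n - k) / (960 (1 + a)²))`. If `k` is odd and
   `2k < n`, then nothing has to be assumed about symmetry, and `FewTranslates K ((n - 3k)/3840)`.
   So if `1 ≤ k ≤ n/200000`, `1 ≤ m ≤ e^(n/20000)`, and `k` is odd or `K = -K`, then `K` is
   covered by less than `2^d` translates of its interior. The dimension `C(n,k)` is exponentially
   large in `n` for `k` proportional to `n`. An example is the unit ball of the comass norm.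

The theorem `CompactLieSymmetries` of the starting files has, for the representations of `SO(n)` of
degree `k`, the exponent `s = (n - 2) / (960 k² (1 + a)²)`, which requires at least `k³ ≤ n`. It
uses the spectral gap of the Killing form (for a Casimir operator which need not be scalar) and
Bernstein's inequality for the norms of the derived operators. Here the Casimir operator is a
scalar, `k (n - k)` for the `k`-forms, and for tensors alternating in `r` blocks the derived
operators `∑_s A_s`, `A` skew, have norm at most `√(rk) ‖A‖` with the Hilbert–Schmidt norm `‖A‖`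
(instead of `k ‖A‖`): this is the Pauli principle, that the one-particle density matrix
of an alternating tensor is at most `1`. The concentration of the functionals (step 1) and the
covering theorem are those of the starting files.
-/

namespace Pool.Agent.Results.MP_eba1ef_gt.IrreducibleSymmetries

open scoped InnerProductSpace
open Module Pool.Agent.V11263

/-- The bounds of the theorem, in terms of the parameter `s`: `K` is covered by at most
`1 + 13 d log(2d²+2d+1) 2^d e^(-s)` translates of its interior, and by less than `2^d` if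
`s ≥ 5 + 2 log d`, where `d` is the dimension. -/
def FewTranslates {E : Type*} [NormedAddCommGroup E] [InnerProductSpace ℝ E] (K : Set E)
    (s : ℝ) : Prop :=
  ∃ T : Finset E, K ⊆ ⋃ t ∈ T, (fun x => t + x) '' interior K ∧
    (T.card : ℝ) ≤ 1 + 13 * finrank ℝ E * Real.log (2 * finrank ℝ E ^ 2 + 2 * finrank ℝ E + 1)
      * 2 ^ finrank ℝ E * Real.exp (-s) ∧
    (5 + 2 * Real.log (finrank ℝ E) ≤ s → T.card < 2 ^ finrank ℝ E)

/-- `K` is a convex body. -/
def IsConvexBody {E : Type*} [NormedAddCommGroup E] [InnerProductSpace ℝ E] (K : Set E) : Prop :=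
  Convex ℝ K ∧ IsCompact K ∧ (interior K).Nonempty

/-- `K ⊆ -a K`. -/
def Asymmetry {E : Type*} [NormedAddCommGroup E] [InnerProductSpace ℝ E] (K : Set E)
    (a : ℝ) : Prop :=
  0 < a ∧ ∀ x ∈ K, -(a⁻¹ • x) ∈ K

/-- The combination `∑ b_i X_i`. -/
noncomputable def comb {E : Type*} [NormedAddCommGroup E] [InnerProductSpace ℝ E] {ι : Type}
    [Fintype ι] (X : ι → E →L[ℝ] E) (b : ι → ℝ) : E →L[ℝ] E :=
  ∑ i, b i • X i

/-- The operators `X i` are skew-symmetric, the combinations `∑ b_i X_i` with `∑ b_i² ≤ 1` have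
norm at most `κ`, and `K` is invariant under the one-parameter groups generated by the
combinations. -/
def Symmetries {E : Type*} [NormedAddCommGroup E] [InnerProductSpace ℝ E] {ι : Type} [Fintype ι]
    (X : ι → E →L[ℝ] E) (κ : ℝ) (K : Set E) : Prop :=
  (∀ i x y, ⟪X i x, y⟫_ℝ = -⟪x, X i y⟫_ℝ) ∧
  (∀ b : ι → ℝ, ∑ i, b i ^ 2 ≤ 1 → ∀ x, ‖comb X b x‖ ≤ κ * ‖x‖) ∧
  (∀ b : ι → ℝ, ∀ x ∈ K, NormedSpace.exp (comb X b) x ∈ K)

/-- The operators `X i` are an orthonormal basis (with respect to an invariant inner product; the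
structure constants are `c`) of an irreducible Lie algebra of operators. -/
def IsIrreducible {E : Type*} [NormedAddCommGroup E] [InnerProductSpace ℝ E] {ι : Type}
    [Fintype ι] (X : ι → E →L[ℝ] E) (c : ι → ι → ι → ℝ) : Prop :=
  (∀ i j x, X i (X j x) - X j (X i x) = comb X (c i j) x) ∧
  (∀ i j k, c i j k = -c k j i) ∧
  (∀ F : Submodule ℝ E, (∀ i, ∀ x ∈ F, X i x ∈ F) → F = ⊥ ∨ F = ⊤)

/-- `m`-tuples of tensors of order `k` over `ℝ^n`. -/
abbrev Tensors (k n m : ℕ) := EuclideanSpace ℝ ((Fin k → Fin n) × Fin m)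

/-- `T'` is the tensor `T` rotated by `U`. -/
def IsRotated {k n m : ℕ} (U : Matrix (Fin n) (Fin n) ℝ) (T T' : Tensors k n m) : Prop :=
  ∀ i l, T' (i, l) = ∑ j : Fin k → Fin n, (∏ s, U (i s) (j s)) * T (j, l)

/-- `U` is a rotation of `ℝ^n`. -/
def IsRotation {n : ℕ} (U : Matrix (Fin n) (Fin n) ℝ) : Prop :=
  U ∈ Matrix.specialOrthogonalGroup (Fin n) ℝ

/-- The slots `s` and `t` of `T` are antisymmetric. -/
def Antisymmetric {k n m : ℕ} (s t : Fin k) (T : Tensors k n m) : Prop :=
  ∀ i l, T (i ∘ Equiv.swap s t, l) = -T (i, l)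

/-- The contraction of the slots `s` and `t` of `T` is zero. -/
def TraceFree {k n m : ℕ} (s t : Fin k) (T : Tensors k n m) : Prop :=
  ∀ i l, ∑ a, T (Function.update (Function.update i s a) t a, l) = 0

/-- `T` is a (tuple of) `k`-form(s), that is, an alternating tensor. -/
def IsForm {k n m : ℕ} (T : Tensors k n m) : Prop :=
  ∀ s t, s ≠ t → Antisymmetric s t T

/-- `T` is alternating in the slots of the same colour, trace-free, and an eigenvector, with the
eigenvalue `χ`, of the sum of the transpositions of the slots (every transposition occurs twice in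
the double sum). -/
def HasType {k n m r : ℕ} (c : Fin k → Fin r) (χ : ℝ) (T : Tensors k n m) : Prop :=
  (∀ s t, s ≠ t → c s = c t → Antisymmetric s t T) ∧ (∀ s t, s ≠ t → TraceFree s t T) ∧
    (∀ i l, ∑ s : Fin k, ∑ t : Fin k, (if s = t then 0 else T (i ∘ Equiv.swap s t, l))
      = 2 * χ * T (i, l))

section

variable {E : Type*} [NormedAddCommGroup E] [InnerProductSpace ℝ E] {k n m : ℕ}

/-- The linear isometry `J` identifies `E` with a space of tensors which is invariant under the
rotations. -/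
def InvariantSpace (J : E →ₗᵢ[ℝ] Tensors k n m) : Prop :=
  ∀ U, IsRotation U → ∀ x, ∃ y, IsRotated U (J x) (J y)

/-- The set `K` (in a space identified with a space of tensors) is invariant under the
rotations. -/
def InvariantBody (J : E →ₗᵢ[ℝ] Tensors k n m) (K : Set E) : Prop :=
  ∀ U, IsRotation U → ∀ x ∈ K, ∀ y, IsRotated U (J x) (J y) → y ∈ K

/-- `J` identifies `E` with the space of the `m`-tuples of `k`-forms. -/
def IsFormSpace (J : E →ₗᵢ[ℝ] Tensors k n m) : Prop :=
  ∀ T, T ∈ Set.range J ↔ IsForm T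

end

/-- `K` is covered by less than `N` translates of its interior. -/
def CoveredByLess {E : Type*} [NormedAddCommGroup E] (K : Set E) (N : ℕ) : Prop :=
  ∃ T : Finset E, K ⊆ ⋃ t ∈ T, (fun x => t + x) '' interior K ∧ T.card < N

theorem few_of_cover {E : Type*} [NormedAddCommGroup E] [InnerProductSpace ℝ E]
    [FiniteDimensional ℝ E] (K : Set E) (hd : 2 ≤ finrank ℝ E) (s : ℝ)
    (h : ∃ T : Finset E, K ⊆ ⋃ t ∈ T, (fun x => t + x) '' interior K ∧
      (T.card : ℝ) ≤ 1 + 13 * finrank ℝ E * Real.log (2 * finrank ℝ E ^ 2 + 2 * finrank ℝ E + 1)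
        * 2 ^ finrank ℝ E * Real.exp (-s)) : FewTranslates K s := by
  obtain ⟨T, hT1, hT2⟩ := h
  exact ⟨T, hT1, hT2, fun hs => Y368.Lie.strict _ hd _ _ hT2 hs⟩

theorem FewTranslates.mono {E : Type*} [NormedAddCommGroup E] [InnerProductSpace ℝ E]
    [FiniteDimensional ℝ E] {K : Set E} {s s' : ℝ} (hs : s' ≤ s) (h : FewTranslates K s) :
    FewTranslates K s' := by
  obtain ⟨T, hT1, hT2, hT3⟩ := h
  refine ⟨T, hT1, hT2.trans ?_, fun h => hT3 (h.trans hs)⟩
  have hlog : 0 ≤ Real.log (2 * (finrank ℝ E : ℝ) ^ 2 + 2 * finrank ℝ E + 1) :=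
    Real.log_nonneg (by nlinarith [Nat.cast_nonneg (α := ℝ) (finrank ℝ E)])
  have hexp : Real.exp (-s) ≤ Real.exp (-s') := Real.exp_le_exp.mpr (neg_le_neg hs)
  gcongr

theorem rotT_of_isRotated {k n m : ℕ} (U : Matrix (Fin n) (Fin n) ℝ) (T T' : Tensors k n m)
    (h : IsRotated U T T') : T' = Ten.rotT U T := by
  ext ⟨i, l⟩
  rw [h i l]
  rfl

theorem isRotated_of_rotT {k n m : ℕ} (U : Matrix (Fin n) (Fin n) ℝ) (T T' : Tensors k n m)
    (h : T' = Ten.rotT U T) : IsRotated U T T' := by
  intro i l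
  rw [h]
  rfl

/-- 1. Symmetries with a scalar Casimir operator. -/
def ScalarCasimir : Prop :=
  ∀ (E : Type) [NormedAddCommGroup E] [InnerProductSpace ℝ E] [FiniteDimensional ℝ E]
    (K : Set E) (a : ℝ), 2 ≤ finrank ℝ E → IsConvexBody K → Asymmetry K a →
    ∀ (ι : Type) [Fintype ι] (X : ι → E →L[ℝ] E) (q κ : ℝ), 0 < q → 0 < κ →
      Symmetries X κ K → (∀ x, -∑ i, X i (X i x) = q • x) →
      FewTranslates K (q / (480 * κ ^ 2 * (1 + a) ^ 2))

/-- 2. Irreducible Lie algebras of symmetries. -/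
def IrreducibleAlgebras : Prop :=
  ∀ (E : Type) [NormedAddCommGroup E] [InnerProductSpace ℝ E] [FiniteDimensional ℝ E]
    (K : Set E) (a : ℝ), 2 ≤ finrank ℝ E → IsConvexBody K → Asymmetry K a →
    ∀ (ι : Type) [Fintype ι] (X : ι → E →L[ℝ] E) (c : ι → ι → ι → ℝ) (κ : ℝ), 0 < κ →
      Symmetries X κ K → IsIrreducible X c → ∀ x : E, ‖x‖ = 1 →
      FewTranslates K ((∑ i, ‖X i x‖ ^ 2) / (480 * κ ^ 2 * (1 + a) ^ 2))

/-- 3. Bodies in spaces of tensors of a symmetry type. -/
def TensorBodies : Prop :=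
  ∀ (E : Type) [NormedAddCommGroup E] [InnerProductSpace ℝ E] [FiniteDimensional ℝ E]
    (k n m r : ℕ) (c : Fin k → Fin r) (χ : ℝ) (J : E →ₗᵢ[ℝ] Tensors k n m), 1 ≤ k →
    0 < (n : ℝ) - 1 + 2 * χ / k → 2 ≤ finrank ℝ E → InvariantSpace J →
    (∀ x, HasType c χ (J x)) → ∀ (K : Set E) (a : ℝ), IsConvexBody K → Asymmetry K a →
      InvariantBody J K → FewTranslates K (((n : ℝ) - 1 + 2 * χ / k) / (960 * r * (1 + a) ^ 2))

/-- 4. Bodies in spaces of forms. -/
def FormBodies : Prop :=
  ∀ (E : Type) [NormedAddCommGroup E] [InnerProductSpace ℝ E] [FiniteDimensional ℝ E]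
    (k n m : ℕ) (J : E →ₗᵢ[ℝ] Tensors k n m), 1 ≤ k → k < n → 1 ≤ m → IsFormSpace J →
    finrank ℝ E = m * n.choose k ∧
    ∀ K : Set E, IsConvexBody K → InvariantBody J K →
      (∀ a, Asymmetry K a → FewTranslates K (((n : ℝ) - k) / (960 * (1 + a) ^ 2))) ∧
      (Odd k → 2 * k < n → FewTranslates K (((n : ℝ) - 3 * k) / 3840)) ∧
      (200000 * k ≤ n → (m : ℝ) ≤ Real.exp (n / 20000) → (Odd k ∨ ∀ x ∈ K, -x ∈ K) →
        CoveredByLess K (2 ^ (m * n.choose k)))

theorem result : ScalarCasimir ∧ IrreducibleAlgebras ∧ TensorBodies ∧ FormBodies := by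
  have hcomb : ∀ (E : Type) [NormedAddCommGroup E] [InnerProductSpace ℝ E] (ι : Type) [Fintype ι]
      (X : ι → E →L[ℝ] E) (b : ι → ℝ) (x : E), comb X b x = ∑ i, b i • X i x := by
    intro E _ _ ι _ X b x
    simp only [comb, FunLike.coe_sum, Finset.sum_apply, smul_apply]
  refine ⟨?_, ?_, ?_, ?_⟩
  · rintro E _ _ _ K a hd ⟨hK, hKc, hKi⟩ ⟨ha, hKa⟩ ι _ X q κ hq hκ ⟨hX, hn, hinv⟩ hcas
    let _ : MeasurableSpace E := borel E
    have _ : BorelSpace E := ⟨rfl⟩
    exact few_of_cover K hd _ (Y368.Lie.cover_scalar' X hX q hq hcas κ hκ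
      (fun b hb x => by rw [← hcomb]; exact hn b hb x) K hd hK hKc hKi a ha hKa hinv)
  · rintro E _ _ _ K a hd ⟨hK, hKc, hKi⟩ ⟨ha, hKa⟩ ι _ X c κ hκ ⟨hX, hn, hinv⟩ ⟨hc, hanti, hirr⟩
      x hx
    let _ : MeasurableSpace E := borel E
    have _ : BorelSpace E := ⟨rfl⟩
    obtain ⟨q, hq, hcas, hsum⟩ := Ten.schur hd X hX c
      (fun i j x => by rw [← hcomb]; exact hc i j x) hanti hirr
    have h1 : ∑ i, ‖X i x‖ ^ 2 = q := by
      rw [hsum, hx]
      ring
    rw [h1]
    exact few_of_cover K hd _ (Y368.Lie.cover_scalar' X hX q hq hcas κ hκ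
      (fun b hb x => by rw [← hcomb]; exact hn b hb x) K hd hK hKc hKi a ha hKa hinv)
  · rintro E _ _ _ k n m r c χ J hk hq hd hW htyp K a ⟨hK, hKc, hKi⟩ ⟨ha, hKa⟩ hinv
    refine few_of_cover K hd _ ?_
    refine Ten.cover_typ J (fun U hU x => ?_) c χ (fun x g s hs t ht hst i l => ?_)
      (fun x => (htyp x).2.1) (fun x => (htyp x).2.2) hk hq K hd hK hKc hKi a ha hKa
      (fun U hU x hx y hy => hinv U hU x hx y (isRotated_of_rotT U _ _ hy))
    · obtain ⟨y, hy⟩ := hW U hU x
      exact ⟨y, rotT_of_isRotated U _ _ hy⟩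
    · rw [Finset.mem_filter] at hs ht
      exact (htyp x).1 s t hst (hs.2.trans ht.2.symm) i l
  · intro E _ _ _ k n m J hk hkn hm hJ
    have hJ' : ∀ T, T ∈ Set.range J ↔ T ∈ Ten.Forms k n m := hJ
    have hfr := Ten.finrank_copy J hJ'
    refine ⟨hfr, ?_⟩
    rintro K ⟨hK, hKc, hKi⟩ hinv
    have hinv' : ∀ U ∈ Matrix.specialOrthogonalGroup (Fin n) ℝ, ∀ x ∈ K, ∀ y : E,
        J y = Ten.rotT U (J x) → y ∈ K :=
      fun U hU x hx y hy => hinv U hU x hx y (isRotated_of_rotT U _ _ hy)
    have hd : 2 ≤ finrank ℝ E := by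
      rw [hfr, ← Ten.finrank_Forms]
      exact Ten.two_le_finrank hk hkn hm
    have h1 : ∀ a, Asymmetry K a → FewTranslates K (((n : ℝ) - k) / (960 * (1 + a) ^ 2)) := by
      rintro a ⟨ha, hKa⟩
      exact few_of_cover K hd _ (Ten.cover_forms J hJ' hk hkn hm K hK hKc hKi a ha hKa hinv')
    have h2 : Odd k → 2 * k < n → FewTranslates K (((n : ℝ) - 3 * k) / 3840) := by
      intro hodd hkn2
      have hkn2' : 2 * (k : ℝ) < n := by exact_mod_cast hkn2
      have ha : 0 < (n : ℝ) / (n - 2 * k) :=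
        div_pos (by linarith [Nat.cast_nonneg (α := ℝ) k]) (by linarith)
      exact (h1 _ ⟨ha, Ten.almost_symm J hJ' hodd hkn2 K hK hinv'⟩).mono
        (Ten.odd_num k n (Nat.cast_nonneg k) hkn2')
    refine ⟨h1, h2, fun hkn3 hmn hor => ?_⟩
    have h3 : FewTranslates K (((n : ℝ) - 3 * k) / 3840) := by
      rcases hor with hodd | hsym
      · exact h2 hodd (by omega)
      · refine (h1 1 ⟨one_pos, fun x hx => ?_⟩).mono ?_
        · rw [inv_one, one_smul]
          exact hsym x hx
        · have : (0 : ℝ) ≤ k := Nat.cast_nonneg k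
          norm_num
          linarith
    obtain ⟨T, hT1, -, hT3⟩ := h3
    rw [hfr] at hT3
    exact ⟨T, hT1, hT3 (Ten.num_forms hk hkn3 hm hmn)⟩

end Pool.Agent.Results.MP_eba1ef_gt.IrreducibleSymmetries
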