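import Mathlib

/-!
Covering generalised sums of convex bodies in complementary spaces by translates of the interior.

If the convex bodies `K` and `L` (with the origin in the interior) are covered by `c` and `d`
translates of their interiors, then every sum `{(x, y) : ψ (|x|_K, |y|_L) ≤ 1}`, with `ψ`
continuous and strictly increasing in each variable, is covered by `c + d` translates of its
interior.
-/

open Set Topology

namespace Pool.Agent.Results.MP_eba1ef_gt.OrliczSums

/-- `K` is covered by at most `c` translates `t + interior K` -/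
def CoveredBy {E : Type*} [AddCommGroup E] [TopologicalSpace E] (K : Set E) (c : ℕ) : Prop :=
  ∃ T : Finset E, T.card ≤ c ∧ K ⊆ ⋃ t ∈ T, (fun x => t + x) '' interior K

/-- the sum of `K` and `L` along `ψ`: the set of `(x, y)` with `ψ (|x|_K, |y|_L) ≤ 1`, where
`|x|_K` is the gauge (Minkowski functional) of `K` -/
def psiSum {E F : Type*} [AddCommGroup E] [Module ℝ E] [AddCommGroup F] [Module ℝ F]
    (ψ : ℝ → ℝ → ℝ) (K : Set E) (L : Set F) : Set (E × F) :=
  {z | ψ (gauge K z.1) (gauge L z.2) ≤ 1}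

lemma move {E : Type*} [NormedAddCommGroup E] [NormedSpace ℝ E] (K : Set E)
    (hc : Convex ℝ K) (hcl : IsClosed K) (h0 : K ∈ 𝓝 (0 : E)) (T : Finset E)
    (hT : K ⊆ ⋃ t ∈ T, (fun x => t + x) '' interior K) (x : E) (hx : 0 < gauge K x) :
    ∃ t ∈ T, ∀ μ : ℝ, 0 < μ → μ ≤ gauge K x → gauge K (x - μ • t) < gauge K x := by
  set r := gauge K x with hr
  have hy : (r⁻¹ • x) ∈ K := by
    have h1 : gauge K (r⁻¹ • x) ≤ 1 := by
      rw [gauge_smul_of_nonneg (inv_nonneg.2 hx.le), ← hr, smul_eq_mul,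
        inv_mul_cancel₀ hx.ne']
    rw [gauge_le_one_iff_mem_closure hc h0, hcl.closure_eq] at h1
    exact h1
  obtain ⟨t, ht, z, hz, hzt⟩ : ∃ t ∈ T, ∃ z ∈ interior K, t + z = r⁻¹ • x := by
    have := hT hy
    simp only [mem_iUnion, mem_image, exists_prop] at this
    exact this
  refine ⟨t, ht, ?_⟩
  intro μ hμ hμr
  have hg : gauge K z < 1 := (gauge_lt_one_iff_mem_interior hc h0).2 hz
  have habs : Absorbent ℝ K := absorbent_nhds_zero h0
  have hxe : x = r • (t + z) := by
    rw [hzt, smul_smul, mul_inv_cancel₀ hx.ne', one_smul]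
  have hdec : x - μ • t = (1 - μ / r) • x + μ • z := by
    have h1 : μ • z = (μ / r) • x - μ • t := by
      rw [hxe, smul_smul, div_mul_cancel₀ _ hx.ne', smul_add]
      abel
    rw [h1, sub_smul, one_smul]
    abel
  have h1 : 0 ≤ 1 - μ / r := by
    rw [sub_nonneg, div_le_one hx]
    exact hμr
  calc gauge K (x - μ • t) = gauge K ((1 - μ / r) • x + μ • z) := by rw [hdec]
    _ ≤ gauge K ((1 - μ / r) • x) + gauge K (μ • z) := gauge_add_le hc habs _ _
    _ = (1 - μ / r) * r + μ * gauge K z := by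
        rw [gauge_smul_of_nonneg h1, gauge_smul_of_nonneg hμ.le, smul_eq_mul, smul_eq_mul]
    _ < (1 - μ / r) * r + μ * 1 := by gcongr
    _ = r := by
        field_simp
        ring

/-- Sums of convex bodies along `ψ` are covered by `c + d` translates of the interior. -/
theorem result {E F : Type*} [NormedAddCommGroup E] [NormedSpace ℝ E]
    [NormedAddCommGroup F] [NormedSpace ℝ F]
    (K : Set E) (hKc : Convex ℝ K) (hKk : IsCompact K) (hK0 : (0 : E) ∈ interior K)
    (L : Set F) (hLc : Convex ℝ L) (hLk : IsCompact L) (hL0 : (0 : F) ∈ interior L)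
    (ψ : ℝ → ℝ → ℝ) (hψ : ContinuousOn (fun p : ℝ × ℝ => ψ p.1 p.2) (Ici 0 ×ˢ Ici 0))
    (hψ1 : ∀ r r' s, 0 ≤ r → r < r' → 0 ≤ s → ψ r s < ψ r' s)
    (hψ2 : ∀ r s s', 0 ≤ r → 0 ≤ s → s < s' → ψ r s < ψ r s')
    (hψ0 : ψ 0 0 < 1) (c d : ℕ) (hc : CoveredBy K c) (hd : CoveredBy L d) :
    CoveredBy (psiSum ψ K L) (c + d) := by
  classical
  have hK0' : K ∈ 𝓝 (0 : E) := mem_interior_iff_mem_nhds.1 hK0
  have hL0' : L ∈ 𝓝 (0 : F) := mem_interior_iff_mem_nhds.1 hL0
  obtain ⟨T₁, hT₁c, hT₁⟩ := hc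
  obtain ⟨T₂, hT₂c, hT₂⟩ := hd
  -- the open set
  set U : Set (E × F) := {z | ψ (gauge K z.1) (gauge L z.2) < 1} with hU
  have hUo : IsOpen U := by
    have hcont : Continuous (fun z : E × F => ψ (gauge K z.1) (gauge L z.2)) := by
      have h1 : Continuous (fun z : E × F => (gauge K z.1, gauge L z.2)) :=
        ((continuous_gauge hKc hK0').comp continuous_fst).prodMk
          ((continuous_gauge hLc hL0').comp continuous_snd)
      exact hψ.comp_continuous h1 (fun z => ⟨gauge_nonneg _, gauge_nonneg _⟩)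
    exact isOpen_lt hcont continuous_const
  have hUi : U ⊆ interior (psiSum ψ K L) :=
    interior_maximal (fun z (hz : ψ (gauge K z.1) (gauge L z.2) < 1) =>
      (show ψ (gauge K z.1) (gauge L z.2) ≤ 1 from le_of_lt hz)) hUo
  -- a base translate
  obtain ⟨t₀, ht₀⟩ : T₁.Nonempty := by
    have := hT₁ (interior_subset hK0)
    simp only [mem_iUnion] at this
    obtain ⟨t, ht, _⟩ := this
    exact ⟨t, ht⟩
  -- the radius
  obtain ⟨δ, hδ, hψδ⟩ : ∃ δ : ℝ, 0 < δ ∧ ψ δ δ < 1 := by
    have h1 : ContinuousOn (fun u : ℝ => ψ u u) (Ici 0) := by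
      have h2 : ContinuousOn (fun u : ℝ => ((u, u) : ℝ × ℝ)) (Ici 0) := by fun_prop
      exact hψ.comp h2 (fun u hu => ⟨hu, hu⟩)
    have h2 := (h1 0 self_mem_Ici).eventually_lt_const hψ0
    have h3 : ∀ᶠ u in 𝓝[>] (0 : ℝ), ψ u u < 1 := h2.filter_mono (nhdsWithin_mono _ Ioi_subset_Ici_self)
    obtain ⟨u, hu1, hu2⟩ := (h3.and self_mem_nhdsWithin).exists
    exact ⟨u, hu2, hu1⟩
  set G := gauge K (-t₀) with hG
  have hG0 : 0 ≤ G := gauge_nonneg _
  set μ : ℝ := δ / (G + 2) with hμ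
  have hμ0 : 0 < μ := by positivity
  have hμδ : μ * (1 + G) < δ := by
    rw [hμ, div_mul_eq_mul_div, div_lt_iff₀ (by positivity)]
    nlinarith
  have hμδ' : μ < δ := by nlinarith
  refine ⟨T₁.image (fun t => (μ • t, (0 : F))) ∪ T₂.image (fun t => ((0 : E), μ • t)), ?_, ?_⟩
  · calc _ ≤ (T₁.image (fun t => (μ • t, (0 : F)))).card
          + (T₂.image (fun t => ((0 : E), μ • t))).card := Finset.card_union_le _ _
      _ ≤ T₁.card + T₂.card := add_le_add Finset.card_image_le Finset.card_image_le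
      _ ≤ c + d := add_le_add hT₁c hT₂c
  · rintro ⟨x, y⟩ hz
    have hz' : ψ (gauge K x) (gauge L y) ≤ 1 := hz
    simp only [mem_iUnion, mem_image, exists_prop, Finset.mem_union, Finset.mem_image]
    rcases le_or_gt μ (gauge K x) with h1 | h1
    · obtain ⟨t, ht, hmv⟩ := move K hKc hKk.isClosed hK0' T₁ hT₁ x (hμ0.trans_le h1)
      refine ⟨(μ • t, 0), Or.inl ⟨t, ht, rfl⟩, (x - μ • t, y), hUi ?_, ?_⟩
      · have h2 := hmv μ hμ0 h1
        exact (hψ1 _ _ _ (gauge_nonneg _) h2 (gauge_nonneg _)).trans_le hz'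
      · simp
    · rcases le_or_gt μ (gauge L y) with h2 | h2
      · obtain ⟨t, ht, hmv⟩ := move L hLc hLk.isClosed hL0' T₂ hT₂ y (hμ0.trans_le h2)
        refine ⟨(0, μ • t), Or.inr ⟨t, ht, rfl⟩, (x, y - μ • t), hUi ?_, ?_⟩
        · have h3 := hmv μ hμ0 h2
          exact (hψ2 _ _ _ (gauge_nonneg _) (gauge_nonneg _) h3).trans_le hz'
        · simp
      · refine ⟨(μ • t₀, 0), Or.inl ⟨t₀, ht₀, rfl⟩, (x - μ • t₀, y), hUi ?_, ?_⟩
        · have habs : Absorbent ℝ K := absorbent_nhds_zero hK0'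
          have h3 : gauge K (x - μ • t₀) < δ := by
            calc gauge K (x - μ • t₀) = gauge K (x + μ • (-t₀)) := by rw [smul_neg, sub_eq_add_neg]
              _ ≤ gauge K x + gauge K (μ • (-t₀)) := gauge_add_le hKc habs _ _
              _ = gauge K x + μ * G := by rw [gauge_smul_of_nonneg hμ0.le, smul_eq_mul]
              _ < μ + μ * G := by linarith
              _ < δ := by linarith
          have h4 : gauge L y < δ := h2.trans hμδ'
          exact ((hψ1 _ _ _ (gauge_nonneg _) h3 (gauge_nonneg _)).trans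
            (hψ2 _ _ _ hδ.le (gauge_nonneg _) h4)).trans hψδ
        · simp

end Pool.Agent.Results.MP_eba1ef_gt.OrliczSums
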