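import Pool.Agent.V11317.Had.Anti

set_option autoImplicit false

/-!
# MP_eba1ef_gt: convex bodies which project into one of their faces; anti-blocking bodies

Let `K` be a compact convex set and `F` the section of `K` by a hyperplane `H` such that the
projection onto `H` along some direction maps `K` into itself (that is, onto `F`); then `F` is
called a *shadow section*, and a *shadow facet* if `K` lies on one side of `H`. For a compact convex
set `X` let `c(X)` be the least number of translates of its relative interior that cover `X`.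

1. `c(K) ≤ 2 c(F)` if `F` is a shadow facet of `K`.
2. `c(K) ≤ 3 c(F)` if `F` is a shadow section of `K`.
3. If a convex body `K` in `ℝⁿ` is the last member of a sequence of compact convex sets, each one a
   shadow facet of the next one, and the first of them has dimension at most two, then
   `c(K) ≤ 2ⁿ`. This is so for all bodies in `ℝⁿ` such that for all `i ≥ 3` the `i`-th coordinate is
   nonnegative on `K` and may be replaced by zero without leaving `K`.
4. If `K` is an anti-blocking body (nonnegative coordinates, and `0 ≤ y ≤ x ∈ K` implies `y ∈ K`)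
   then `c(K) ≤ 2ⁿ - 1`, unless `K` is a box; and for all `n ≥ 2` the number `2ⁿ - 1` is attained by
   an anti-blocking body which is not a box.

The proof of (1). Let the hyperplane be `φ = 0` and the direction `v`, `φ(v) = 1`. Let `T`
illuminate `F` in its span. For small `s` the points `x` of `K` at height less than `β` are moved
into the relative interior by `-s t + (small) v`, where `t` in `T` is chosen for the projection
of `x` into `F`, and the points at larger height by `-s t - s M v`, since the projection of `x` is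
in `K`, so that going down is free. The proof of (4): a point `x` of `K` is moved by a small amount
`-b` in the directions of its large coordinates and by a far smaller amount `a` in the directions
of its small coordinates, which leads to the interior. If all coordinates are large, one of them
may nevertheless be increased by `a`, if the vector of the maxima of the coordinates is not in `K`.
-/

open Set Topology

namespace Pool.Agent.Results.MP_eba1ef_gt.ShadowFacets

/-- the Euclidean space -/
abbrev Eu (n : ℕ) : Type := EuclideanSpace ℝ (Fin n)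

/-- convex bodies -/
def IsConvexBody {n : ℕ} (K : Set (Eu n)) : Prop :=
  Convex ℝ K ∧ IsCompact K ∧ (interior K).Nonempty

/-- `K` is covered by at most `N` translates of its interior. -/
def CoveredBy {n : ℕ} (K : Set (Eu n)) (N : ℕ) : Prop :=
  ∃ T : Finset (Eu n), T.card ≤ N ∧ K ⊆ ⋃ t ∈ T, (fun x => t + x) '' interior K

/-- `A` is covered by at most `N` translates of its relative interior. -/
def RelCoveredBy {n : ℕ} (A : Set (Eu n)) (N : ℕ) : Prop :=
  ∃ T : Finset (Eu n), T.card ≤ N ∧ A ⊆ ⋃ t ∈ T, (fun x => t + x) '' intrinsicInterior ℝ A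

/-- the dimension of the affine hull of a nonempty set -/
noncomputable def dim {n : ℕ} (A : Set (Eu n)) : ℕ := Module.finrank ℝ (vectorSpan ℝ A)

/-- `F` is the section of `K` by the hyperplane `φ = c`, and the projection onto this hyperplane
along `v` maps `K` into itself. -/
def ShadowBy {n : ℕ} (K F : Set (Eu n)) (φ : Eu n →L[ℝ] ℝ) (c : ℝ) (v : Eu n) : Prop :=
  φ v = 1 ∧ F = {x | x ∈ K ∧ φ x = c} ∧ ∀ x ∈ K, x - (φ x - c) • v ∈ K

/-- shadow sections -/
def ShadowSection {n : ℕ} (K F : Set (Eu n)) : Prop := ∃ φ c v, ShadowBy K F φ c v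

/-- shadow facets -/
def ShadowFacet {n : ℕ} (K F : Set (Eu n)) : Prop :=
  ∃ φ c v, ShadowBy K F φ c v ∧ ∀ x ∈ K, c ≤ φ x

/-- anti-blocking sets -/
def AntiBlocking {n : ℕ} (K : Set (Eu n)) : Prop :=
  (∀ x ∈ K, ∀ i, 0 ≤ x i) ∧ ∀ x ∈ K, ∀ y : Eu n, (∀ i, 0 ≤ y i ∧ y i ≤ x i) → y ∈ K

/-- boxes with a vertex at the origin -/
def IsBox {n : ℕ} (K : Set (Eu n)) : Prop :=
  ∃ a : Fin n → ℝ, K = {x | ∀ i, 0 ≤ x i ∧ x i ≤ a i}

theorem result :
    -- 1. shadow facets
    (∀ (n : ℕ) (K F : Set (Eu n)), Convex ℝ K → IsCompact K → ShadowFacet K F →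
      ∀ N, RelCoveredBy F N → RelCoveredBy K (2 * N)) ∧
    -- 2. shadow sections
    (∀ (n : ℕ) (K F : Set (Eu n)), Convex ℝ K → IsCompact K → ShadowSection K F →
      ∀ N, RelCoveredBy F N → RelCoveredBy K (3 * N)) ∧
    -- 3. towers of shadow facets
    (∀ (n k : ℕ) (G : ℕ → Set (Eu n)), (∀ i ≤ k, Convex ℝ (G i) ∧ IsCompact (G i)) →
      (∀ i < k, ShadowFacet (G (i + 1)) (G i)) → dim (G 0) ≤ 2 → (interior (G k)).Nonempty →
      CoveredBy (G k) (2 ^ n)) ∧
    (∀ (n : ℕ) (K : Set (Eu n)), IsConvexBody K →
      (∀ i : Fin n, 2 ≤ i.val → ∀ x ∈ K, 0 ≤ x i ∧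
        x - x i • (EuclideanSpace.single i 1 : Eu n) ∈ K) → CoveredBy K (2 ^ n)) ∧
    -- 4. anti-blocking bodies
    (∀ (n : ℕ) (K : Set (Eu n)), IsConvexBody K → AntiBlocking K → ¬ IsBox K →
      CoveredBy K (2 ^ n - 1)) ∧
    (∀ n : ℕ, 2 ≤ n → ∃ K : Set (Eu n), IsConvexBody K ∧ AntiBlocking K ∧ ¬ IsBox K ∧
      ∀ N, CoveredBy K N → 2 ^ n - 1 ≤ N) := by
  have hri : ∀ (n : ℕ) (K : Set (Eu n)), Convex ℝ K → K.Nonempty →
      (intrinsicInterior ℝ K).Nonempty := fun n K hK h => h.intrinsicInterior hK
  have hpow : ∀ (n : ℕ) (K : Set (Eu n)), 2 ^ Module.finrank ℝ (vectorSpan ℝ K) ≤ 2 ^ n := by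
    intro n K
    refine Nat.pow_le_pow_right (by norm_num) ?_
    have := Submodule.finrank_le (vectorSpan ℝ K)
    rwa [finrank_euclideanSpace, Fintype.card_fin] at this
  refine ⟨?_, ?_, ?_, ?_, ?_, ?_⟩
  · rintro n K F hK hKc ⟨φ, c, v, h, hpos⟩ N hN
    exact V11317.Had.facet_aff hK hKc (hri n K hK) h hpos hN
  · rintro n K F hK hKc ⟨φ, c, v, h⟩ N hN
    exact V11317.Had.sect_aff hK hKc (hri n K hK) h hN
  · intro n k G hG h hd hint
    have key := V11317.Had.tower G k (fun i hi => (hG i hi).1) (fun i hi => (hG i hi).2) h hd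
    exact V11317.Had.cov_of_rcov (hG k le_rfl).1 hint (key.mono (hpow n _))
  · intro n K hK h
    exact V11317.Had.cov_of_rcov hK.1 hK.2.2 ((V11317.Had.part hK.1 hK.2.1 h).mono (hpow n _))
  · intro n K hK hA hbox
    exact V11317.Had.anti hK hA hbox
  · intro n hn
    exact V11317.Had.sharp hn

end Pool.Agent.Results.MP_eba1ef_gt.ShadowFacets
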